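import Pool.Agent.H62.CNT.E2A

/-!
# Row E2I: classification of the extraspecial 2-groups
-/

set_option autoImplicit false

namespace Pool.CND

namespace E2

section

variable {G : Type} [Group G]

theorem pwz_center {z : G} (hz : Zd G z) (s : Bool) : pw z s ∈ Subgroup.center G := by
  rw [Subgroup.mem_center_iff]
  intro g
  exact (pwz_comm hz s g).symm

theorem zd_of_X2 {h : ℕ} (hG : X2 h G) : ∃ z : G, Zd G z := by
  obtain ⟨x, y, hxy, huniv⟩ := Nat.card_eq_two_iff.mp hG.center
  have key : ∃ z : Subgroup.center G, z ≠ 1 ∧ ∀ c : Subgroup.center G, c = 1 ∨ c = z := by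
    have h1 : (1 : Subgroup.center G) ∈ ({x, y} : Set (Subgroup.center G)) := by
      rw [huniv]; trivial
    have h2 : ∀ c : Subgroup.center G, c = x ∨ c = y := by
      intro c
      have : c ∈ ({x, y} : Set (Subgroup.center G)) := by rw [huniv]; trivial
      simpa using this
    rcases h1 with h1 | h1
    · refine ⟨y, ?_, ?_⟩
      · rw [h1]; exact hxy.symm
      · rw [h1]; exact h2
    · rw [Set.mem_singleton_iff] at h1
      refine ⟨x, ?_, ?_⟩
      · rw [h1]; exact hxy
      · rw [h1]; exact fun c => (h2 c).symm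
  obtain ⟨z, hz1, hz⟩ := key
  have hcen : ∀ c ∈ Subgroup.center G, c = 1 ∨ c = (z : G) := by
    intro c hc
    rcases hz ⟨c, hc⟩ with h | h
    · left
      exact congrArg Subtype.val h
    · right
      exact congrArg Subtype.val h
  have hcomm : ∀ g : G, (z : G) * g = g * z := fun g =>
    (Subgroup.mem_center_iff.mp z.2 g).symm
  refine ⟨z, ⟨fun h => hz1 (Subtype.ext h), hcomm, ?_, hcen, ?_, ?_⟩⟩
  · rcases hz (z * z) with h | h
    · exact congrArg Subtype.val h
    · exfalso
      apply hz1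
      have : z * z = z * 1 := by rw [h, mul_one]
      exact mul_left_cancel this
  · intro g g'
    have h1 := hG.comm g g'
    have h2 : g * g' = g' * g * (g * g' * g⁻¹ * g'⁻¹) := by
      have h3 := Subgroup.mem_center_iff.mp h1 (g' * g)
      rw [h3]
      group
    rcases hcen _ h1 with h | h
    · exact ⟨false, by rw [h] at h2; exact h2⟩
    · exact ⟨true, by rw [h] at h2; exact h2⟩
  · intro g
    have h1 := hG.pow g
    rw [pow_two] at h1
    rcases hcen _ h1 with h | h
    · exact ⟨false, h⟩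
    · exact ⟨true, h⟩

theorem X2_of_zd {h : ℕ} {z : G} (hz : Zd G z) (hcard : Nat.card G = 2 ^ (2 * h + 1)) : X2 h G := by
  refine ⟨hcard, ?_, ?_, ?_⟩
  · rw [Nat.card_eq_two_iff]
    refine ⟨1, ⟨z, pwz_center hz true⟩, ?_, ?_⟩
    · intro h
      exact hz.ne (congrArg Subtype.val h).symm
    · rw [Set.eq_univ_iff_forall]
      intro c
      rcases hz.cen c c.2 with h | h
      · left
        exact Subtype.ext h
      · right
        exact Subtype.ext h
  · intro g
    obtain ⟨s, hs⟩ := hz.pw2 g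
    rw [pow_two, hs]
    exact pwz_center hz s
  · intro g g'
    obtain ⟨s, hs⟩ := hz.cm g g'
    have : g * g' * g⁻¹ * g'⁻¹ = pw z s := by
      unfold Cm at hs
      rw [hs]
      calc g' * g * pw z s * g⁻¹ * g'⁻¹ = g' * g * (pw z s * (g⁻¹ * g'⁻¹)) := by group
        _ = g' * g * ((g⁻¹ * g'⁻¹) * pw z s) := by rw [pwz_comm hz]
        _ = pw z s := by group
    rw [this]
    exact pwz_center hz s

theorem zd_Ce {z : G} (hz : Zd G z) {a b : G} (hab : Cm z b a true) :
    Zd (Ce a b) ⟨z, mem_Ce.mpr ⟨hz.comm a, hz.comm b⟩⟩ := by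
  have hmem : ∀ s, pw z s ∈ Ce a b := fun s => mem_Ce.mpr ⟨pwz_comm hz s a, pwz_comm hz s b⟩
  have hpw : ∀ s, ((pw (⟨z, mem_Ce.mpr ⟨hz.comm a, hz.comm b⟩⟩ : Ce a b) s : Ce a b) : G) = pw z s := by
    intro s
    cases s <;> rfl
  refine ⟨fun h => hz.ne (congrArg Subtype.val h), fun g => Subtype.ext (hz.comm g),
    Subtype.ext hz.sq, ?_, ?_, ?_⟩
  · intro c hc
    have h1 : (c : G) ∈ Subgroup.center G := by
      rw [Subgroup.mem_center_iff]
      intro g
      obtain ⟨i, j, c0, rfl⟩ := dec hz hab g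
      have hc1 := mem_Ce.mp c.2
      have h2 : ∀ i, pw a i * (c : G) = c * pw a i := by
        intro i
        cases i
        · simp
        · exact hc1.1.symm
      have h3 : ∀ i, pw b i * (c : G) = c * pw b i := by
        intro i
        cases i
        · simp
        · exact hc1.2.symm
      have h4 : (c0 : G) * c = c * c0 := congrArg Subtype.val (Subgroup.mem_center_iff.mp hc c0)
      calc pw a i * pw b j * (c0 : G) * c = pw a i * pw b j * ((c0 : G) * c) := by group
        _ = pw a i * (pw b j * c) * c0 := by rw [h4]; group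
        _ = (pw a i * c) * pw b j * c0 := by rw [h3]; group
        _ = c * (pw a i * pw b j * c0) := by rw [h2]; group
    rcases hz.cen _ h1 with h | h
    · left
      exact Subtype.ext h
    · right
      exact Subtype.ext h
  · intro x y
    obtain ⟨s, hs⟩ := hz.cm x y
    refine ⟨s, Subtype.ext ?_⟩
    rw [Subgroup.coe_mul, Subgroup.coe_mul, Subgroup.coe_mul, hpw]
    exact hs
  · intro x
    obtain ⟨s, hs⟩ := hz.pw2 x
    refine ⟨s, Subtype.ext ?_⟩
    rw [Subgroup.coe_mul, hpw]
    exact hs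

/-- adjoining an involution -/
theorem adj [Finite G] (B : Subgroup G) (hB : EA 2 B) (a : G) (ha : a * a = 1)
    (hc : ∀ x ∈ B, a * x = x * a) (haB : a ∉ B) :
    ∃ B' : Subgroup G, a ∈ B' ∧ EA 2 B' ∧ Nat.card B' = 2 * Nat.card B := by
  have hai : a⁻¹ = a := inv_eq_of_mul_eq_one_left ha
  have hpa : ∀ (s : Bool) (x : G), x ∈ B → pw a s * x = x * pw a s := by
    intro s x hx
    cases s
    · simp
    · exact hc x hx
  have hpp : ∀ s t : Bool, pw a s * pw a t = pw a (xor s t) := by
    intro s t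
    cases s <;> cases t <;> simp [ha]
  let B' : Subgroup G :=
    { carrier := {x | ∃ (s : Bool) (y : G), y ∈ B ∧ x = pw a s * y}
      mul_mem' := by
        rintro x x' ⟨s, y, hy, rfl⟩ ⟨t, y', hy', rfl⟩
        refine ⟨xor s t, y * y', mul_mem hy hy', ?_⟩
        calc pw a s * y * (pw a t * y') = pw a s * (y * pw a t) * y' := by group
          _ = (pw a s * pw a t) * (y * y') := by rw [← hpa t y hy]; group
          _ = _ := by rw [hpp]
      one_mem' := ⟨false, 1, one_mem _, by simp⟩
      inv_mem' := by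
        rintro x ⟨s, y, hy, rfl⟩
        refine ⟨s, y⁻¹, inv_mem hy, ?_⟩
        have : (pw a s)⁻¹ = pw a s := by
          cases s
          · simp
          · exact hai
        rw [mul_inv_rev, this, hpa s _ (inv_mem hy)] }
  have hmem : ∀ x, x ∈ B' ↔ ∃ (s : Bool) (y : G), y ∈ B ∧ x = pw a s * y := fun x => Iff.rfl
  refine ⟨B', ⟨true, 1, one_mem _, by simp⟩, ⟨?_, ?_⟩, ?_⟩
  · rintro x ⟨s, y, hy, rfl⟩
    have h1 : y * y = 1 := by
      have := hB.1 y hy
      rwa [pow_two] at this
    rw [pow_two]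
    calc pw a s * y * (pw a s * y) = pw a s * (y * pw a s) * y := by group
      _ = (pw a s * pw a s) * (y * y) := by rw [← hpa s y hy]; group
      _ = 1 := by rw [hpp, h1]; simp
  · rintro x ⟨s, y, hy, rfl⟩ x' ⟨t, y', hy', rfl⟩
    calc pw a s * y * (pw a t * y') = pw a s * (y * pw a t) * y' := by group
      _ = (pw a s * pw a t) * (y * y') := by rw [← hpa t y hy]; group
      _ = (pw a t * pw a s) * (y' * y) := by rw [hpp, hpp, Bool.xor_comm, hB.2 y hy y' hy']
      _ = pw a t * (pw a s * y') * y := by group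
      _ = pw a t * y' * (pw a s * y) := by rw [hpa s y' hy']; group
  · have hb : Function.Bijective (fun x : Bool × B => (⟨pw a x.1 * x.2, ⟨x.1, x.2, x.2.2, rfl⟩⟩ : B')) := by
      constructor
      · rintro ⟨s, y⟩ ⟨t, y'⟩ h
        have h1 : pw a s * (y : G) = pw a t * y' := congrArg Subtype.val h
        cases s <;> cases t
        · simp only [pw_false, one_mul] at h1
          rw [Subtype.ext h1]
        · exfalso
          apply haB
          simp only [pw_false, pw_true, one_mul] at h1
          have : a = y * (y' : G)⁻¹ := by rw [h1]; group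
          rw [this]
          exact mul_mem y.2 (inv_mem y'.2)
        · exfalso
          apply haB
          simp only [pw_false, pw_true, one_mul] at h1
          have : a = y' * (y : G)⁻¹ := by rw [← h1]; group
          rw [this]
          exact mul_mem y'.2 (inv_mem y.2)
        · simp only [pw_true] at h1
          rw [Subtype.ext (mul_left_cancel h1)]
      · rintro ⟨x, s, y, hy, rfl⟩
        exact ⟨⟨s, ⟨y, hy⟩⟩, rfl⟩
    have h1 := Nat.card_congr (Equiv.ofBijective _ hb)
    rw [Nat.card_prod, Nat.card_eq_fintype_card (α := Bool), Fintype.card_bool] at h1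
    exact h1.symm

theorem half [Finite G] {z : G} (hz : Zd G z) (B : Subgroup G) (b : G) :
    Nat.card B ≤ 2 * Nat.card (B ⊓ Subgroup.centralizer {b} : Subgroup G) := by
  have hcen : ∀ x, x ∈ Subgroup.centralizer {b} ↔ Cm z x b false := by
    intro x
    rw [Subgroup.mem_centralizer_singleton_iff]
    unfold Cm
    rw [pw_false, mul_one]
  by_cases h : ∃ x0 ∈ B, Cm z x0 b true
  · obtain ⟨x0, hx0, hx0b⟩ := h
    choose s hs using fun x : G => hz.cm x b
    have hm : ∀ x : B, (pw x0 (s x))⁻¹ * (x : G) ∈ (B ⊓ Subgroup.centralizer {b} : Subgroup G) := by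
      intro x
      rw [Subgroup.mem_inf]
      constructor
      · refine B.mul_mem (B.inv_mem ?_) x.2
        cases s x
        · exact B.one_mem
        · exact hx0
      · rw [hcen]
        have h1 := ((hx0b.pw hz (s x)).inv hz).mul hz (hs x)
        simpa using h1
    have hinj : Function.Injective (fun x : B => ((s x, ⟨_, hm x⟩) :
        Bool × (B ⊓ Subgroup.centralizer {b} : Subgroup G))) := by
      intro x y hxy
      have h1 : s x = s y := congrArg Prod.fst hxy
      have h2 : (pw x0 (s x))⁻¹ * (x : G) = (pw x0 (s y))⁻¹ * (y : G) :=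
        congrArg (fun w => ((w.2 : (B ⊓ Subgroup.centralizer {b} : Subgroup G)) : G)) hxy
      rw [h1] at h2
      exact Subtype.ext (mul_left_cancel h2)
    have h1 := Nat.card_le_card_of_injective _ hinj
    rw [Nat.card_prod, Nat.card_eq_fintype_card (α := Bool), Fintype.card_bool] at h1
    exact h1
  · push Not at h
    have hle : B ≤ B ⊓ Subgroup.centralizer {b} := by
      intro x hx
      refine ⟨hx, ?_⟩
      show x ∈ Subgroup.centralizer {b}
      rw [hcen]
      obtain ⟨s, hs⟩ := hz.cm x b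
      cases s
      · exact hs
      · exact absurd hs (h x hx)
    have h1 := Nat.card_le_card_of_injective _ (Subgroup.inclusion_injective hle)
    omega

theorem pls_of_le [Finite G] {h : ℕ} (A : Subgroup G) (hA : EA 2 A)
    (hc : 2 ^ (h + 1) ≤ Nat.card A) : Pls h G := by
  haveI : Fact (Nat.Prime 2) := ⟨Nat.prime_two⟩
  have hp : IsPGroup 2 A := fun a => ⟨1, by
    apply Subtype.ext
    rw [pow_one]
    exact hA.1 a a.2⟩
  obtain ⟨m, hm⟩ := IsPGroup.iff_card.mp hp
  have h1 : h + 1 ≤ m := by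
    rw [hm] at hc
    exact (Nat.pow_le_pow_iff_right (by norm_num)).mp hc
  obtain ⟨K, hK⟩ := Sylow.exists_subgroup_card_pow_prime (G := A) 2 (n := h + 1)
    (by rw [hm]; exact pow_dvd_pow 2 h1)
  refine ⟨K.map A.subtype, ⟨?_, ?_⟩, ?_⟩
  · rintro _ ⟨x, _, rfl⟩
    exact hA.1 x x.2
  · rintro _ ⟨x, _, rfl⟩ _ ⟨y, _, rfl⟩
    exact hA.2 x x.2 y y.2
  · rw [Subgroup.card_map_of_injective A.subtype_injective, hK]

theorem pls_down [Finite G] {h : ℕ} {z : G} (hz : Zd G z) {a b : G} (hab : Cm z b a true)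
    (ha : a * a = 1) (hP : Pls (h + 1) G) : Pls h (Ce a b) := by
  obtain ⟨A, hA, hAc⟩ := hP
  have h1 : ∃ A1 : Subgroup G, a ∈ A1 ∧ EA 2 A1 ∧ 2 ^ (h + 2) ≤ Nat.card A1 := by
    by_cases haA : a ∈ A
    · exact ⟨A, haA, hA, hAc.ge⟩
    · have h2 := half hz A a
      obtain ⟨B', hB1, hB2, hB3⟩ := adj (A ⊓ Subgroup.centralizer {a})
        ⟨fun x hx => hA.1 x hx.1, fun x hx y hy => hA.2 x hx.1 y hy.1⟩ a ha
        (fun x hx => (Subgroup.mem_centralizer_singleton_iff.mp hx.2).symm) (fun h => haA h.1)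
      refine ⟨B', hB1, hB2, ?_⟩
      rw [hB3]
      rw [hAc] at h2
      exact h2
  obtain ⟨A1, h3, h4, h5⟩ := h1
  have h6 := half hz A1 b
  have hle : (A1 ⊓ Subgroup.centralizer {b} : Subgroup G) ≤ Ce a b := by
    intro x hx
    rw [mem_Ce]
    exact ⟨h4.2 x hx.1 a h3, Subgroup.mem_centralizer_singleton_iff.mp hx.2⟩
  apply pls_of_le ((A1 ⊓ Subgroup.centralizer {b} : Subgroup G).subgroupOf (Ce a b))
  · refine ⟨fun x hx => Subtype.ext (h4.1 x hx.1), fun x hx y hy =>
      Subtype.ext (h4.2 x hx.1 y hy.1)⟩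
  · rw [Nat.card_congr (Subgroup.subgroupOfEquivOfLe hle).toEquiv]
    have h7 : 2 ^ (h + 2) = 2 * 2 ^ (h + 1) := by rw [pow_succ 2 (h + 1), mul_comm]
    omega

theorem pls_up [Finite G] {h : ℕ} {z : G} (hz : Zd G z) {a b : G} (hab : Cm z b a true)
    (ha : a * a = 1) (hP : Pls h (Ce a b)) : Pls (h + 1) G := by
  obtain ⟨A, hA, hAc⟩ := hP
  obtain ⟨B', _, hB2, hB3⟩ := adj (A.map (Ce a b).subtype)
    ⟨by
      rintro _ ⟨x, hx, rfl⟩
      exact congrArg Subtype.val (hA.1 x hx), by
      rintro _ ⟨x, hx, rfl⟩ _ ⟨y, hy, rfl⟩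
      exact congrArg Subtype.val (hA.2 x hx y hy)⟩ a ha
    (by
      rintro _ ⟨x, _, rfl⟩
      exact (mem_Ce.mp x.2).1.symm)
    (by
      rintro ⟨x, _, hx⟩
      have h1 : (x : G) = a := hx
      have h2 := (mem_Ce.mp x.2).2
      rw [h1] at h2
      have h3 : Cm z a b false := by
        unfold Cm
        rw [pw_false, mul_one]
        exact h2
      exact absurd ((hab.symm hz).unique hz h3) (by simp))
  refine ⟨B', hB2, ?_⟩
  rw [hB3, Subgroup.card_map_of_injective (Ce a b).subtype_injective, hAc, pow_succ 2 (h + 1),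
    mul_comm]

theorem ex_pair {z : G} (hz : Zd G z) {a : G} (ha : a ∉ Subgroup.center G) :
    ∃ b, Cm z b a true := by
  by_contra hcon
  push Not at hcon
  apply ha
  rw [Subgroup.mem_center_iff]
  intro g
  obtain ⟨s, hs⟩ := hz.cm g a
  cases s
  · unfold Cm at hs
    rw [pw_false, mul_one] at hs
    exact hs
  · exact absurd hs (hcon g)

theorem hyp_pair {z : G} (hz : Zd G z) {a : G} (ha : a ∉ Subgroup.center G) (ha2 : a * a = 1) :
    ∃ b, Cm z b a true ∧ b * b = 1 := by
  obtain ⟨b, hb⟩ := ex_pair hz ha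
  obtain ⟨s, hs⟩ := hz.pw2 b
  cases s
  · exact ⟨b, hb, hs⟩
  · refine ⟨a * b, ?_, ?_⟩
    · have := (Cm.self (z := z) a).mul hz hb
      simpa using this
    · have hb' : b * a = a * b * z := hb
      have hs' : b * b = z := hs
      calc a * b * (a * b) = a * (b * a) * b := by group
        _ = (a * a) * b * (z * b) := by rw [hb']; group
        _ = (b * b) * z := by rw [ha2, hz.comm b]; group
        _ = 1 := by rw [hs', hz.sq]

/-- a noncentral involution -/
def NI (G : Type) [Group G] : Prop := ∃ a : G, a ∉ Subgroup.center G ∧ a * a = 1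

theorem ni_of_pls [Finite G] {h : ℕ} (hG : X2 (h + 1) G) (hP : Pls (h + 1) G) : NI G := by
  obtain ⟨A, hA, hAc⟩ := hP
  by_contra hcon
  have hle : A ≤ Subgroup.center G := by
    intro x hx
    by_contra hx2
    exact hcon ⟨x, hx2, by rw [← pow_two]; exact hA.1 x hx⟩
  have h1 := Nat.card_le_card_of_injective _ (Subgroup.inclusion_injective hle)
  rw [hG.center, hAc] at h1
  have h2 : 2 ^ 2 ≤ 2 ^ (h + 1 + 1) := Nat.pow_le_pow_right (by norm_num) (by omega)
  omega

theorem pls_of_ni [Finite G] (hG : X2 1 G) (hN : NI G) : Pls 1 G := by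
  obtain ⟨a, ha, ha2⟩ := hN
  obtain ⟨z, hz⟩ := zd_of_X2 hG
  obtain ⟨B', _, hB2, hB3⟩ := adj (Subgroup.center G)
    ⟨fun x hx => by
      rw [pow_two]
      rcases hz.cen x hx with h | h
      · rw [h, mul_one]
      · rw [h, hz.sq], fun x hx y _ => (Subgroup.mem_center_iff.mp hx y).symm⟩ a ha2
    (fun x hx => Subgroup.mem_center_iff.mp hx a) ha
  exact ⟨B', hB2, by rw [hB3, hG.center]; norm_num⟩

theorem ex_noncentral {h : ℕ} (hG : X2 (h + 1) G) : ∃ a : G, a ∉ Subgroup.center G := by
  by_contra hcon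
  push Not at hcon
  have h1 : Subgroup.center G = ⊤ := by
    rw [eq_top_iff]
    exact fun x _ => hcon x
  have h2 := hG.center
  rw [h1, Subgroup.card_top, hG.card] at h2
  have h3 : 2 ^ 3 ≤ 2 ^ (2 * (h + 1) + 1) := Nat.pow_le_pow_right (by norm_num) (by omega)
  omega

theorem ni_of_big [Finite G] {h : ℕ} (hG : X2 (h + 1) G) (hh : 1 ≤ h) : NI G := by
  by_contra hcon
  obtain ⟨z, hz⟩ := zd_of_X2 hG
  have hsq : ∀ a : G, a ∉ Subgroup.center G → a * a = z := by
    intro a ha
    obtain ⟨s, hs⟩ := hz.pw2 a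
    cases s
    · exact absurd ⟨a, ha, hs⟩ hcon
    · exact hs
  obtain ⟨a, ha⟩ := ex_noncentral hG
  have haa := hsq a ha
  have h1 := half hz ⊤ a
  rw [Subgroup.card_top, hG.card, top_inf_eq] at h1
  have h3 : 2 ^ 5 ≤ 2 ^ (2 * (h + 1) + 1) := Nat.pow_le_pow_right (by norm_num) (by omega)
  have h4 : ∃ y ∈ Subgroup.centralizer {a}, y ∉ ({1, z, a, a * z} : Set G) := by
    by_contra hcon2
    push Not at hcon2
    have h5 : (Subgroup.centralizer {a} : Set G) ⊆ {1, z, a, a * z} := hcon2
    have h6 := Set.ncard_le_ncard h5 (Set.toFinite _)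
    have h7 : ({1, z, a, a * z} : Set G).ncard ≤ 4 := by
      refine (Set.ncard_insert_le _ _).trans ?_
      have := Set.ncard_insert_le z ({a, a * z} : Set G)
      have := Set.ncard_insert_le a ({a * z} : Set G)
      have := Set.ncard_singleton (a * z)
      omega
    rw [← Nat.card_coe_set_eq] at h6
    have h8 : Nat.card (Subgroup.centralizer {a} : Subgroup G) ≤ 4 := h6.trans h7
    omega
  obtain ⟨y, hy1, hy2⟩ := h4
  simp only [Set.mem_insert_iff, Set.mem_singleton_iff, not_or] at hy2
  obtain ⟨y1, y2, y3, y4⟩ := hy2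
  have hyc : y ∉ Subgroup.center G := by
    intro h
    rcases hz.cen y h with h | h
    · exact y1 h
    · exact y2 h
  have hyy := hsq y hyc
  have hay : y * a = a * y := Subgroup.mem_centralizer_singleton_iff.mp hy1
  apply hcon
  refine ⟨a * y, ?_, ?_⟩
  · intro h
    rcases hz.cen _ h with h | h
    · apply y4
      calc y = a * (a * a)⁻¹ * (a * y) := by group
        _ = a * z := by
            rw [h, haa, mul_one]
            rw [inv_eq_of_mul_eq_one_left hz.sq]
    · apply y3
      calc y = a * (a * a)⁻¹ * (a * y) := by group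
        _ = a := by rw [h, haa]; group
  · calc a * y * (a * y) = a * (y * a) * y := by group
      _ = (a * a) * (y * y) := by rw [hay]; group
      _ = 1 := by rw [haa, hyy, hz.sq]

end

theorem step {G G' : Type} [Group G] [Group G'] {h : ℕ} {z : G} {z' : G'} (hz : Zd G z)
    (hz' : Zd G' z') (hG : X2 (h + 1) G) (hG' : X2 (h + 1) G') {a b : G} {a' b' : G'}
    (hab : Cm z b a true) (hab' : Cm z' b' a' true) {s t : Bool} (ha : a * a = pw z s)
    (hb : b * b = pw z t) (ha' : a' * a' = pw z' s) (hb' : b' * b' = pw z' t)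
    (IH : X2 h (Ce a b) → X2 h (Ce a' b') → Nonempty (Ce a b ≃* Ce a' b')) :
    Nonempty (G ≃* G') := by
  haveI : Finite G := Nat.finite_of_card_ne_zero (by rw [hG.card]; positivity)
  haveI : Finite G' := Nat.finite_of_card_ne_zero (by rw [hG'.card]; positivity)
  have hC := zd_Ce hz hab
  have hC' := zd_Ce hz' hab'
  have e : 2 ^ (2 * (h + 1) + 1) = 4 * 2 ^ (2 * h + 1) := by
    rw [show 2 * (h + 1) + 1 = (2 * h + 1) + 2 by ring, pow_add]
    ring
  have c1 := card_Ce hz hab
  have c2 := card_Ce hz' hab'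
  rw [hG.card] at c1
  rw [hG'.card] at c2
  obtain ⟨φ⟩ := IH (X2_of_zd hC (by omega)) (X2_of_zd hC' (by omega))
  apply glue hz hz' hab hab' ha hb ha' hb' φ
  intro s w hw
  cases s
  · have : w = 1 := Subtype.ext hw
    rw [this, map_one]
    rfl
  · have hw' : w = ⟨z, mem_Ce.mpr ⟨hz.comm a, hz.comm b⟩⟩ := Subtype.ext hw
    have h1 : φ w ∈ Subgroup.center (Ce a' b') := by
      rw [Subgroup.mem_center_iff]
      intro g
      obtain ⟨g, rfl⟩ := φ.surjective g
      rw [← map_mul, ← map_mul, hw', hC.comm g]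
    rcases hC'.cen _ h1 with h2 | h2
    · exfalso
      rw [map_eq_one_iff φ φ.injective, hw'] at h2
      exact hC.ne h2
    · rw [h2]
      rfl

theorem main (h : ℕ) : ∀ (G G' : Type) [Group G] [Group G'], X2 h G → X2 h G' →
    (Pls h G ↔ Pls h G') → Nonempty (G ≃* G') := by
  have base : ∀ (G G' : Type) [Group G] [Group G'], X2 0 G → X2 0 G' → Nonempty (G ≃* G') := by
    intro G G' _ _ hG hG'
    haveI : Fact (Nat.Prime 2) := ⟨Nat.prime_two⟩
    have h1 : Nat.card G = 2 := by rw [hG.card]; norm_num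
    have h2 : Nat.card G' = 2 := by rw [hG'.card]; norm_num
    exact ⟨mulEquivOfPrimeCardEq h1 h2⟩
  induction h with
  | zero =>
    intro G G' _ _ hG hG' _
    exact base G G' hG hG'
  | succ h IH =>
    intro G G' _ _ hG hG' hP
    haveI : Finite G := Nat.finite_of_card_ne_zero (by rw [hG.card]; positivity)
    haveI : Finite G' := Nat.finite_of_card_ne_zero (by rw [hG'.card]; positivity)
    obtain ⟨z, hz⟩ := zd_of_X2 hG
    obtain ⟨z', hz'⟩ := zd_of_X2 hG'
    have hNN : NI G ↔ NI G' := by
      rcases Nat.eq_zero_or_pos h with rfl | hpos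
      · constructor
        · intro hN
          exact ni_of_pls hG' (hP.mp (pls_of_ni hG hN))
        · intro hN
          exact ni_of_pls hG (hP.mpr (pls_of_ni hG' hN))
      · exact ⟨fun _ => ni_of_big hG' hpos, fun _ => ni_of_big hG hpos⟩
    by_cases hN : NI G
    · obtain ⟨a, ha, ha2⟩ := hN
      obtain ⟨a', ha', ha2'⟩ := hNN.mp ⟨a, ha, ha2⟩
      obtain ⟨b, hab, hb2⟩ := hyp_pair hz ha ha2
      obtain ⟨b', hab', hb2'⟩ := hyp_pair hz' ha' ha2'
      refine step hz hz' hG hG' hab hab' (s := false) (t := false) ha2 hb2 ha2' hb2' ?_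
      intro h1 h2
      apply IH _ _ h1 h2
      constructor
      · intro h3
        exact pls_down hz' hab' ha2' (hP.mp (pls_up hz hab ha2 h3))
      · intro h3
        exact pls_down hz hab ha2 (hP.mpr (pls_up hz' hab' ha2' h3))
    · have hN' : ¬ NI G' := fun h => hN (hNN.mpr h)
      have hh : h = 0 := by
        by_contra hne
        exact hN (ni_of_big hG (by omega))
      subst hh
      have hsq : ∀ a : G, a ∉ Subgroup.center G → a * a = z := by
        intro a ha
        obtain ⟨s, hs⟩ := hz.pw2 a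
        cases s
        · exact absurd ⟨a, ha, hs⟩ hN
        · exact hs
      have hsq' : ∀ a : G', a ∉ Subgroup.center G' → a * a = z' := by
        intro a ha
        obtain ⟨s, hs⟩ := hz'.pw2 a
        cases s
        · exact absurd ⟨a, ha, hs⟩ hN'
        · exact hs
      obtain ⟨a, ha⟩ := ex_noncentral hG
      obtain ⟨a', ha'⟩ := ex_noncentral hG'
      obtain ⟨b, hab⟩ := ex_pair hz ha
      obtain ⟨b', hab'⟩ := ex_pair hz' ha'
      have hbc : b ∉ Subgroup.center G := by
        intro h
        have h1 : Cm z b a false := by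
          unfold Cm
          rw [pw_false, mul_one]
          exact (Subgroup.mem_center_iff.mp h a).symm
        exact absurd (hab.unique hz h1) (by simp)
      have hbc' : b' ∉ Subgroup.center G' := by
        intro h
        have h1 : Cm z' b' a' false := by
          unfold Cm
          rw [pw_false, mul_one]
          exact (Subgroup.mem_center_iff.mp h a').symm
        exact absurd (hab'.unique hz' h1) (by simp)
      exact step hz hz' hG hG' hab hab' (s := true) (t := true) (hsq a ha) (hsq b hbc)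
        (hsq' a' ha') (hsq' b' hbc') (fun h1 h2 => base _ _ h1 h2)

end E2

theorem e2i_thm : S_E2I := by
  intro h G G' _ _ _ hG hG' hP
  exact E2.main h G G' hG hG' hP

end Pool.CND
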