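import Pool.Agent.H37.CNT.Stmts

/-!
# Row E2I, part 1: commutator signs, centralizers of pairs, gluing
-/

set_option autoImplicit false

namespace Pool.CND

namespace E2

/-- `x` or `1` -/
def pw {G : Type} [Group G] (x : G) : Bool → G
  | true => x
  | false => 1

@[simp] theorem pw_true {G : Type} [Group G] (x : G) : pw x true = x := rfl

@[simp] theorem pw_false {G : Type} [Group G] (x : G) : pw x false = 1 := rfl

/-- `x a = a x z ^ s` -/
def Cm {G : Type} [Group G] (z x a : G) (s : Bool) : Prop := x * a = a * x * pw z s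

/-- `z` is the nontrivial central element -/
structure Zd (G : Type) [Group G] (z : G) : Prop where
  ne : z ≠ 1
  comm : ∀ g : G, z * g = g * z
  sq : z * z = 1
  cen : ∀ c ∈ Subgroup.center G, c = 1 ∨ c = z
  cm : ∀ x y : G, ∃ s, Cm z x y s
  pw2 : ∀ x : G, ∃ s, x * x = pw z s

section

variable {G : Type} [Group G] {z : G} (hz : Zd G z)

include hz

theorem pwz_comm (s : Bool) (g : G) : pw z s * g = g * pw z s := by
  cases s
  · simp
  · exact hz.comm g

theorem pwz_mul (s t : Bool) : pw z s * pw z t = pw z (xor s t) := by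
  cases s <;> cases t <;> simp [hz.sq]

theorem Cm.mul {x y a : G} {s t : Bool} (h1 : Cm z x a s) (h2 : Cm z y a t) :
    Cm z (x * y) a (xor s t) := by
  unfold Cm at *
  calc x * y * a = x * (y * a) := by group
    _ = (x * a) * y * pw z t := by rw [h2]; group
    _ = a * x * (pw z s * y) * pw z t := by rw [h1]; group
    _ = a * (x * y) * (pw z s * pw z t) := by rw [pwz_comm hz]; group
    _ = a * (x * y) * pw z (xor s t) := by rw [pwz_mul hz]

theorem Cm.inv {x a : G} {s : Bool} (h : Cm z x a s) : Cm z x⁻¹ a s := by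
  unfold Cm at *
  have h1 : a = x⁻¹ * a * x * pw z s := by
    calc a = x⁻¹ * (x * a) := by group
      _ = x⁻¹ * a * x * pw z s := by rw [h]; group
  have h2 : a * pw z s = x⁻¹ * a * x := by
    calc a * pw z s = (x⁻¹ * a * x * pw z s) * pw z s := by rw [← h1]
      _ = x⁻¹ * a * x * (pw z s * pw z s) := by group
      _ = x⁻¹ * a * x := by rw [pwz_mul hz]; simp
  calc x⁻¹ * a = (x⁻¹ * a * x) * x⁻¹ := by group
    _ = a * (pw z s * x⁻¹) := by rw [← h2]; group
    _ = a * x⁻¹ * pw z s := by rw [pwz_comm hz]; group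

theorem Cm.unique {x a : G} {s t : Bool} (h1 : Cm z x a s) (h2 : Cm z x a t) : s = t := by
  unfold Cm at *
  have h3 : pw z s = pw z t := mul_left_cancel (h1.symm.trans h2)
  cases s <;> cases t <;> simp at h3 ⊢
  · exact hz.ne h3.symm
  · exact hz.ne h3

theorem Cm.symm {x a : G} {s : Bool} (h : Cm z x a s) : Cm z a x s := by
  unfold Cm at *
  rw [h]
  calc a * x = a * x * (pw z s * pw z s) := by rw [pwz_mul hz]; simp
    _ = a * x * pw z s * pw z s := by group

theorem Cm.pw {x a : G} {s : Bool} (h : Cm z x a s) (t : Bool) :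
    Cm z (E2.pw x t) a (t && s) := by
  cases t
  · show (1 : G) * a = a * 1 * 1
    group
  · exact h

omit hz in
theorem Cm.self (x : G) : Cm z x x false := by
  show x * x = x * x * 1
  group

end

/-- the centralizer of `a`, `b` -/
abbrev Ce {G : Type} [Group G] (a b : G) : Subgroup G := Subgroup.centralizer {a, b}

theorem mem_Ce {G : Type} [Group G] {a b x : G} : x ∈ Ce a b ↔ x * a = a * x ∧ x * b = b * x := by
  rw [Subgroup.mem_centralizer_iff]
  constructor
  · intro h
    exact ⟨(h a (by simp)).symm, (h b (by simp)).symm⟩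
  · rintro ⟨h1, h2⟩ y hy
    rcases hy with rfl | hy
    · exact h1.symm
    · rw [Set.mem_singleton_iff] at hy
      subst hy
      exact h2.symm

theorem dec {G : Type} [Group G] {z : G} (hz : Zd G z) {a b : G} (hab : Cm z b a true) (g : G) :
    ∃ (i j : Bool) (c : Ce a b), g = pw a i * pw b j * c := by
  obtain ⟨s, hs⟩ := hz.cm g a
  obtain ⟨t, ht⟩ := hz.cm g b
  have hba : Cm z a b true := hab.symm hz
  have h1 : Cm z (pw a t * pw b s) a s := by
    have := ((Cm.self a).pw hz t).mul hz (hab.pw hz s)
    simpa using this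
  have h2 : Cm z (pw a t * pw b s) b t := by
    have := (hba.pw hz t).mul hz ((Cm.self b).pw hz s)
    simpa using this
  have h3 := (h1.inv hz).mul hz hs
  have h4 := (h2.inv hz).mul hz ht
  refine ⟨t, s, ⟨(pw a t * pw b s)⁻¹ * g, ?_⟩, ?_⟩
  · rw [mem_Ce]
    unfold Cm at h3 h4
    simp only [bne_self_eq_false, Bool.xor_self, pw_false, mul_one] at h3 h4
    exact ⟨h3, h4⟩
  · show g = pw a t * pw b s * ((pw a t * pw b s)⁻¹ * g)
    group

theorem dec_unique {G : Type} [Group G] {z : G} (hz : Zd G z) {a b : G} (hab : Cm z b a true)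
    {i j k l : Bool} {c c' : Ce a b} (h : pw a i * pw b j * (c : G) = pw a k * pw b l * c') :
    i = k ∧ j = l ∧ c = c' := by
  have hba : Cm z a b true := hab.symm hz
  have hc : ∀ c : Ce a b, Cm z (c : G) a false ∧ Cm z (c : G) b false := by
    intro c
    have := mem_Ce.mp c.2
    unfold Cm
    simp only [pw_false, mul_one]
    exact this
  have h1 : ∀ (i j : Bool) (c : Ce a b), Cm z (pw a i * pw b j * (c : G)) a j := by
    intro i j c
    have := (((Cm.self a).pw hz i).mul hz (hab.pw hz j)).mul hz (hc c).1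
    simpa using this
  have h2 : ∀ (i j : Bool) (c : Ce a b), Cm z (pw a i * pw b j * (c : G)) b i := by
    intro i j c
    have := ((hba.pw hz i).mul hz ((Cm.self b).pw hz j)).mul hz (hc c).2
    simpa using this
  have e1 : j = l := (h1 i j c).unique hz (h ▸ h1 k l c')
  have e2 : i = k := (h2 i j c).unique hz (h ▸ h2 k l c')
  subst e1
  subst e2
  exact ⟨rfl, rfl, Subtype.ext (mul_left_cancel h)⟩

theorem card_Ce {G : Type} [Group G] [Finite G] {z : G} (hz : Zd G z) {a b : G}
    (hab : Cm z b a true) : Nat.card G = 4 * Nat.card (Ce a b) := by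
  have hb : Function.Bijective (fun x : Bool × Bool × Ce a b => pw a x.1 * pw b x.2.1 * (x.2.2 : G)) := by
    constructor
    · rintro ⟨i, j, c⟩ ⟨k, l, c'⟩ h
      obtain ⟨h1, h2, h3⟩ := dec_unique hz hab h
      subst h1 h2 h3
      rfl
    · intro g
      obtain ⟨i, j, c, h⟩ := dec hz hab g
      exact ⟨⟨i, j, c⟩, h.symm⟩
  have h1 := Nat.card_congr (Equiv.ofBijective _ hb)
  rw [Nat.card_prod, Nat.card_prod, Nat.card_eq_fintype_card (α := Bool), Fintype.card_bool] at h1
  omega

/-- multiplication of normal forms -/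
theorem mulNF {G : Type} [Group G] {z : G} (hz : Zd G z) {a b : G} (hab : Cm z b a true)
    {s t : Bool} (ha : a * a = pw z s) (hb : b * b = pw z t) (i j k l : Bool) (c c' : G)
    (hca : c * a = a * c) (hcb : c * b = b * c) :
    (pw a i * pw b j * c) * (pw a k * pw b l * c') =
      pw a (xor i k) * pw b (xor j l) *
        (pw z (i && k && s) * pw z (j && l && t) * pw z (j && k) * (c * c')) := by
  have h1 : ∀ k, c * pw a k = pw a k * c := by
    intro k
    cases k
    · simp
    · exact hca
  have h2 : ∀ l, c * pw b l = pw b l * c := by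
    intro k
    cases k
    · simp
    · exact hcb
  have h3 : ∀ j k, pw b j * pw a k = pw a k * pw b j * pw z (j && k) := by
    intro j k
    cases j <;> cases k <;> simp
    exact hab
  have h4 : ∀ i k, pw a i * pw a k = pw a (xor i k) * pw z (i && k && s) := by
    intro i k
    cases i <;> cases k <;> simp [ha]
  have h5 : ∀ i k, pw b i * pw b k = pw b (xor i k) * pw z (i && k && t) := by
    intro i k
    cases i <;> cases k <;> simp [hb]
  calc (pw a i * pw b j * c) * (pw a k * pw b l * c') =
      pw a i * pw b j * (c * pw a k) * pw b l * c' := by group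
    _ = pw a i * pw b j * pw a k * (c * pw b l) * c' := by rw [h1]; group
    _ = pw a i * (pw b j * pw a k) * pw b l * (c * c') := by rw [h2]; group
    _ = pw a i * pw a k * pw b j * (pw z (j && k) * pw b l) * (c * c') := by rw [h3]; group
    _ = (pw a i * pw a k) * (pw b j * pw b l) * pw z (j && k) * (c * c') := by
        rw [pwz_comm hz]; group
    _ = pw a (xor i k) * (pw z (i && k && s) * pw b (xor j l)) * pw z (j && l && t) *
        pw z (j && k) * (c * c') := by rw [h4, h5]; group
    _ = _ := by rw [pwz_comm hz]; group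

theorem glue {G G' : Type} [Group G] [Group G'] {z : G} {z' : G'} (hz : Zd G z) (hz' : Zd G' z')
    {a b : G} {a' b' : G'} (hab : Cm z b a true) (hab' : Cm z' b' a' true) {s t : Bool}
    (ha : a * a = pw z s) (hb : b * b = pw z t) (ha' : a' * a' = pw z' s)
    (hb' : b' * b' = pw z' t) (φ : Ce a b ≃* Ce a' b')
    (hφ : ∀ (s : Bool) (w : Ce a b), (w : G) = pw z s → ((φ w : Ce a' b') : G') = pw z' s) :
    Nonempty (G ≃* G') := by
  have hzC : ∀ s, pw z s ∈ Ce a b := by
    intro s
    rw [mem_Ce]
    exact ⟨pwz_comm hz s a, pwz_comm hz s b⟩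
  choose fi fj fc hf using dec hz hab
  have hval : ∀ (i j : Bool) (c : Ce a b), fi (pw a i * pw b j * c) = i ∧
      fj (pw a i * pw b j * c) = j ∧ fc (pw a i * pw b j * c) = c := by
    intro i j c
    exact dec_unique hz hab (hf _).symm
  let F : G →* G' :=
    { toFun := fun g => pw a' (fi g) * pw b' (fj g) * (φ (fc g) : G')
      map_one' := by
        obtain ⟨h1, h2, h3⟩ := hval false false 1
        simp only [pw_false, one_mul, OneMemClass.coe_one] at h1 h2 h3
        simp [h1, h2, h3]
      map_mul' := by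
        intro g h
        have hcg := mem_Ce.mp (fc g).2
        have hcg' := mem_Ce.mp (φ (fc g)).2
        have h1 := mulNF hz hab ha hb (fi g) (fj g) (fi h) (fj h) (fc g : G) (fc h : G) hcg.1 hcg.2
        rw [← hf g, ← hf h] at h1
        have h2 := mulNF hz' hab' ha' hb' (fi g) (fj g) (fi h) (fj h) (φ (fc g) : G')
          (φ (fc h) : G') hcg'.1 hcg'.2
        rw [h2]
        let w1 : Ce a b := ⟨pw z (fi g && fi h && s), hzC _⟩
        let w2 : Ce a b := ⟨pw z (fj g && fj h && t), hzC _⟩
        let w3 : Ce a b := ⟨pw z (fj g && fi h), hzC _⟩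
        have h3 : g * h = pw a (xor (fi g) (fi h)) * pw b (xor (fj g) (fj h)) *
            ((w1 * w2 * w3 * (fc g * fc h) : Ce a b) : G) := h1
        obtain ⟨e1, e2, e3⟩ := hval (xor (fi g) (fi h)) (xor (fj g) (fj h))
          (w1 * w2 * w3 * (fc g * fc h))
        rw [← h3] at e1 e2 e3
        rw [e1, e2, e3, map_mul, map_mul, map_mul, map_mul]
        have f1 := hφ _ w1 rfl
        have f2 := hφ _ w2 rfl
        have f3 := hφ _ w3 rfl
        simp only [Subgroup.coe_mul]
        rw [f1, f2, f3] }
  have hFval : ∀ (i j : Bool) (c : Ce a b), F (pw a i * pw b j * c) =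
      pw a' i * pw b' j * (φ c : G') := by
    intro i j c
    obtain ⟨e1, e2, e3⟩ := hval i j c
    show pw a' (fi _) * pw b' (fj _) * (φ (fc _) : G') = _
    rw [e1, e2, e3]
  refine ⟨MulEquiv.ofBijective F ⟨?_, ?_⟩⟩
  · intro g h hgh
    have h1 : pw a' (fi g) * pw b' (fj g) * (φ (fc g) : G') =
      pw a' (fi h) * pw b' (fj h) * (φ (fc h) : G') := hgh
    obtain ⟨e1, e2, e3⟩ := dec_unique hz' hab' h1
    rw [hf g, hf h, e1, e2, φ.injective e3]
  · intro g'
    obtain ⟨i, j, c, h⟩ := dec hz' hab' g'
    refine ⟨pw a i * pw b j * (φ.symm c : Ce a b), ?_⟩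
    rw [hFval, MulEquiv.apply_symm_apply, h]

end E2

end Pool.CND
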